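import Pool.Agent.P.MP_bd6b97_lc.G4.Flip

set_option autoImplicit false

namespace Pool.Agent.P.MP_bd6b97_lc.G4

open Set Function Relation MeasureTheory

variable {V : Type} {G : SimpleGraph V}

lemma good_back {F : Set V} {u v w : V} (huv : G.Adj u v) (hvw : G.Adj v w) (hwu : w ≠ u)
    (h : Good G F v w) : Good G F u v := by
  obtain ⟨X, hXf, hv, hw, hr, hX⟩ := h
  refine ⟨insert u X, hXf.insert u, mem_insert _ _, mem_insert_of_mem _ hv, ?_, ?_⟩
  · rintro x (rfl | hx)
    · rfl
    · exact huv.reachable.trans (hr x hx)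
  · rintro x (rfl | hx) hxu hxF
    · exact absurd rfl hxu
    by_cases hxv : x = v
    · subst hxv
      exact ⟨u, w, hwu.symm, huv.symm, hvw, mem_insert _ _, mem_insert_of_mem _ hw⟩
    · obtain ⟨a, b, hab, ha, hb, haX, hbX⟩ := hX x hx hxv hxF
      exact ⟨a, b, hab, ha, hb, mem_insert_of_mem _ haX, mem_insert_of_mem _ hbX⟩

lemma good_of_mem {F : Set V} {u v : V} (huv : G.Adj u v) (hv : v ∈ F) : Good G F u v := by
  refine ⟨{u, v}, toFinite _, by simp, by simp, ?_, ?_⟩
  · rintro x (rfl | rfl)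
    · rfl
    · exact huv.reachable
  · rintro x (rfl | rfl) h1 h2
    · exact absurd rfl h1
    · exact absurd hv h2

lemma Good.mono {F F' : Set V} (hF : F ⊆ F') {u v : V} (h : Good G F u v) : Good G F' u v := by
  obtain ⟨X, hXf, hv, hw, hr, hX⟩ := h
  exact ⟨X, hXf, hv, hw, hr, fun x hx h1 h2 => hX x hx h1 fun h => h2 (hF h)⟩

lemma exists_closer {t v : V} (h : G.Reachable t v) (hne : v ≠ t) :
    ∃ w, G.Adj v w ∧ G.dist t w + 1 = G.dist t v := by
  obtain ⟨p, hp⟩ := h.symm.exists_walk_length_eq_dist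
  cases p with
  | nil => exact absurd rfl hne
  | @cons _ w _ hadj q =>
    refine ⟨w, hadj, ?_⟩
    have h1 := SimpleGraph.dist_le q
    have h2 := hadj.diff_dist_adj (u := t)
    simp only [SimpleGraph.Walk.length_cons] at hp
    rw [SimpleGraph.dist_comm] at h1 hp
    omega

/-- all darts ending at `t` are good -/
def Tgt (G : SimpleGraph V) (F : Set V) (t : V) : Prop := ∀ u, G.Adj u t → Good G F u t

lemma good_toward {F : Set V} {t : V} (ht : Tgt G F t) {u v : V} (hr : G.Reachable t v)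
    (huv : G.Adj u v) (hd : G.dist t v ≤ G.dist t u) : Good G F u v := by
  induction hk : G.dist t v generalizing u v with
  | zero =>
    have : t = v := hr.dist_eq_zero_iff.1 hk
    subst this
    exact ht u huv
  | succ k ih =>
    have hne : v ≠ t := by rintro rfl; simp at hk
    obtain ⟨w, hw, hw'⟩ := exists_closer hr hne
    refine good_back huv hw ?_ (ih (hr.trans hw.reachable) hw (by omega) (by omega))
    rintro rfl
    omega

lemma tgt_of_cycle {t : V} (p : G.Walk t t) (hp : p.IsCycle) : Tgt G ∅ t := by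
  classical
  intro u hu
  have hfin : {x | x ∈ p.support}.Finite := List.finite_toSet _
  refine ⟨insert u {x | x ∈ p.support}, hfin.insert u, mem_insert _ _,
    mem_insert_of_mem _ p.start_mem_support, ?_, ?_⟩
  · rintro x (rfl | hx)
    · rfl
    · exact hu.reachable.trans ⟨p.takeUntil x hx⟩
  · rintro x (rfl | hx) h1 -
    · exact absurd rfl h1
    obtain ⟨a, b, hab, h⟩ := Set.ncard_eq_two.1 (hp.ncard_neighborSet_toSubgraph_eq_two hx)
    have ha : p.toSubgraph.Adj x a := by
      rw [← SimpleGraph.Subgraph.mem_neighborSet, h]; simp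
    have hb : p.toSubgraph.Adj x b := by
      rw [← SimpleGraph.Subgraph.mem_neighborSet, h]; simp
    exact ⟨a, b, hab, ha.adj_sub, hb.adj_sub,
      mem_insert_of_mem _ (p.mem_verts_toSubgraph.1 ha.snd_mem),
      mem_insert_of_mem _ (p.mem_verts_toSubgraph.1 hb.snd_mem)⟩

/-- a dart that is not good -/
def Bad (G : SimpleGraph V) (F : Set V) (u v : V) : Prop := G.Adj u v ∧ ¬ Good G F u v

lemma Bad.fwd {F : Set V} {u v w : V} (h : Bad G F u v) (hw : G.Adj v w) (hwu : w ≠ u) :
    Bad G F v w := ⟨hw, fun h' => h.2 (good_back h.1 hw hwu h')⟩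

lemma Bad.lt {F : Set V} {t u v : V} (ht : Tgt G F t) (hr : G.Reachable t v) (h : Bad G F u v) :
    G.dist t u < G.dist t v := by
  by_contra hcon
  exact h.2 (good_toward ht hr h.1 (by omega))

/-- length of the backward chain of bad darts -/
def Ch (G : SimpleGraph V) (F : Set V) : ℕ → V → Prop
  | 0, v => ¬ ∃ u, Bad G F u v
  | j + 1, v => ∃ u, Bad G F u v ∧ Ch G F j u

section chain

variable {F : Set V} (h : ∀ v, ∃ t, G.Reachable v t ∧ Tgt G F t)

include h in
lemma bad_unique {u u' v : V} (h1 : Bad G F u v) (h2 : Bad G F u' v) : u = u' := by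
  by_contra hne
  obtain ⟨t, hr, ht⟩ := h v
  have h3 := (h1.fwd h2.1.symm (Ne.symm hne)).lt ht (hr.symm.trans h2.1.symm.reachable)
  have h4 := h2.lt ht hr.symm
  omega

include h in
lemma ch_unique {j j' : ℕ} {v : V} (h1 : Ch G F j v) (h2 : Ch G F j' v) : j = j' := by
  induction j generalizing j' v with
  | zero =>
    cases j' with
    | zero => rfl
    | succ j' => obtain ⟨u, hu, -⟩ := h2; exact absurd ⟨u, hu⟩ h1
  | succ j ih =>
    obtain ⟨u, hu, hu'⟩ := h1
    cases j' with
    | zero => exact absurd ⟨u, hu⟩ h2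
    | succ j' =>
      obtain ⟨u', hw, hw'⟩ := h2
      obtain rfl := bad_unique h hu hw
      rw [ih hu' hw']

include h in
lemma ch_exists (v : V) : ∃ j, Ch G F j v := by
  obtain ⟨t, hr, ht⟩ := h v
  have hr' := hr.symm
  clear hr
  induction hk : G.dist t v using Nat.strong_induction_on generalizing v with
  | _ k ih =>
    by_cases hv : ∃ u, Bad G F u v
    · obtain ⟨u, hu⟩ := hv
      obtain ⟨j, hj⟩ := ih _ (hk ▸ hu.lt ht hr') u (hr'.trans hu.1.symm.reachable) rfl
      exact ⟨j + 1, u, hu, hj⟩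
    · exact ⟨0, hv⟩

end chain

variable [MeasurableSpace V]

namespace Cub

variable (C : Cub G)

lemma good_iff (F : Set V) (u v : V) : Good G F u v ↔ ∃ L : Finset (List ℕ),
    (∃ s, s ∈ L ∧ C.wd s u = u) ∧ (∃ s, s ∈ L ∧ C.wd s u = v) ∧
    ∀ s, s ∈ L → C.wd s u ≠ u → C.wd s u ∉ F → ∃ a b, C.wd a u ≠ C.wd b u ∧
      G.Adj (C.wd s u) (C.wd a u) ∧ G.Adj (C.wd s u) (C.wd b u) ∧ a ∈ L ∧ b ∈ L := by
  classical
  constructor
  · rintro ⟨X, hXf, hu, hv, hr, hX⟩
    choose! f hf using fun x hx => (C.reach_iff u x).1 (hr x hx)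
    have hm : ∀ x ∈ X, f x ∈ hXf.toFinset.image f := fun x hx =>
      Finset.mem_image.2 ⟨x, by simpa using hx, rfl⟩
    refine ⟨hXf.toFinset.image f, ⟨f u, hm u hu, hf u hu⟩, ⟨f v, hm v hv, hf v hv⟩, ?_⟩
    intro s hs h1 h2
    obtain ⟨x, hx, rfl⟩ := Finset.mem_image.1 hs
    have hx' : x ∈ X := by simpa using hx
    rw [hf x hx'] at h1 h2 ⊢
    obtain ⟨a, b, hab, ha, hb, haX, hbX⟩ := hX x hx' h1 h2
    refine ⟨f a, f b, ?_, ?_, ?_, hm a haX, hm b hbX⟩
    · rwa [hf a haX, hf b hbX]
    · rwa [hf a haX]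
    · rwa [hf b hbX]
  · rintro ⟨L, ⟨s1, hs1, h1⟩, ⟨s2, hs2, h2⟩, hL⟩
    refine ⟨(fun s => C.wd s u) '' L, L.finite_toSet.image _, ⟨s1, hs1, h1⟩, ⟨s2, hs2, h2⟩,
      ?_, ?_⟩
    · rintro x ⟨s, -, rfl⟩
      exact (C.reach_iff _ _).2 ⟨s, rfl⟩
    · rintro x ⟨s, hs, rfl⟩ h3 h4
      obtain ⟨a, b, hab, ha, hb, haL, hbL⟩ := hL s hs h3 h4
      exact ⟨_, _, hab, ha, hb, ⟨a, haL, rfl⟩, ⟨b, hbL, rfl⟩⟩

include C in
lemma meas_good {F : Set V} (hF : Measurable fun v => v ∈ F) :
    Measurable fun p : V × V => Good G F p.1 p.2 := by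
  simp_rw [C.good_iff]
  have hw : ∀ s, Measurable fun p : V × V => C.wd s p.1 := fun s =>
    (C.meas_wd s).comp measurable_fst
  refine Measurable.exists fun L => Measurable.and ?_ (Measurable.and ?_ ?_)
  · exact Measurable.exists fun s => measurable_const.and (C.meas_eq (hw s) measurable_fst)
  · exact Measurable.exists fun s => measurable_const.and (C.meas_eq (hw s) measurable_snd)
  · refine Measurable.forall fun s => measurable_const.imp
      ((C.meas_eq (hw s) measurable_fst).not.imp ((hF.comp (hw s)).not.imp ?_))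
    exact Measurable.exists fun a => Measurable.exists fun b =>
      (C.meas_eq (hw a) (hw b)).not.and ((C.meas_adj (hw s) (hw a)).and
        ((C.meas_adj (hw s) (hw b)).and measurable_const))

include C in
lemma meas_tgt {F : Set V} (hF : Measurable fun v => v ∈ F) : Measurable (Tgt G F) :=
  C.meas_all' (P := fun t u => G.Adj u t) (Q := fun t u => Good G F u t) measurable_id
    (fun _ _ h => h.symm.reachable) (C.meas_adj measurable_snd measurable_fst)
    ((C.meas_good hF).comp measurable_swap)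

include C in
lemma meas_bad {F : Set V} (hF : Measurable fun v => v ∈ F) :
    Measurable fun p : V × V => Bad G F p.2 p.1 :=
  (C.meas_adj measurable_snd measurable_fst).and ((C.meas_good hF).comp measurable_swap).not

include C in
lemma meas_ch {F : Set V} (hF : Measurable fun v => v ∈ F) (j : ℕ) : Measurable (Ch G F j) := by
  induction j with
  | zero =>
    exact (C.meas_exadj (Q := fun v u => Bad G F u v) measurable_id (fun _ _ h => h.1.symm)
      (C.meas_bad hF)).not
  | succ j ih =>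
    exact C.meas_exadj (Q := fun v u => Bad G F u v ∧ Ch G F j u) measurable_id
      (fun _ _ h => h.1.1.symm) ((C.meas_bad hF).and (ih.comp measurable_snd))

include C in
theorem exists_happy_of_tgt {c : V → Bool} (hc : Measurable c) {F : Set V}
    (hFm : Measurable fun v => v ∈ F) (hF : Leafless G c F)
    (h : ∀ v, ∃ t, G.Reachable v t ∧ Tgt G F t) :
    ∃ d : V → Bool, Measurable d ∧ ∀ v, Happy G d v := by
  classical
  let Z : Set V := {v | ∃ u, Bad G F u v}
  have hZ : Measurable fun v => v ∈ Z :=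
    C.meas_exadj (Q := fun v u => Bad G F u v) measurable_id (fun _ _ h => h.1.symm)
      (C.meas_bad hFm)
  let c' : V → Bool := fun v => if v ∈ Z then decide (∃ j, Ch G F j v ∧ Even j) else c v
  have hc' : Measurable c' := by
    refine Measurable.ite (measurableSet_setOfPred.2 hZ) (meas_decide ?_) hc
    exact Measurable.exists fun j => (C.meas_ch hFm j).and measurable_const
  have hcol : ∀ v j, v ∈ Z → Ch G F j v → c' v = decide (Even j) := by
    intro v j hv hj
    simp only [c', hv, if_true, decide_eq_decide]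
    constructor
    · rintro ⟨j', h1, h2⟩
      rwa [ch_unique h hj h1]
    · exact fun h2 => ⟨j, hj, h2⟩
  have hFZ : ∀ v ∈ F, c' v = c v := by
    intro v hv
    have : v ∉ Z := fun ⟨u, hu⟩ => hu.2 (good_of_mem hu.1 hv)
    simp only [c', this, if_false]
  refine C.exists_happy_of_good hc' (F := F ∪ Z) ?_ ?_
  · rintro v (hv | hv)
    · obtain ⟨a, b, hab, ha, hb, haF, hbF⟩ := hF v hv
      refine ⟨a, b, hab, ⟨ha.1, ?_⟩, ⟨hb.1, ?_⟩, Or.inl haF, Or.inl hbF⟩
      · rw [hFZ v hv, hFZ a haF]; exact ha.2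
      · rw [hFZ v hv, hFZ b hbF]; exact hb.2
    · obtain ⟨u, hu⟩ := hv
      obtain ⟨j, hj⟩ := ch_exists h v
      have key : ∀ a, G.Adj v a → a ≠ u → Bi G c' v a ∧ a ∈ Z := by
        intro a ha hau
        have hb := hu.fwd ha hau
        refine ⟨⟨ha, ?_⟩, v, hb⟩
        rw [hcol v j ⟨u, hu⟩ hj, hcol a (j + 1) ⟨v, hb⟩ ⟨v, hb, hj⟩]
        rw [Ne, decide_eq_decide, Nat.even_add_one]
        exact iff_not_self
      obtain ⟨a, b, hab, ha, hb, hau, hbu⟩ := C.exists_two v u
      exact ⟨a, b, hab, (key a ha hau).1, (key b hb hbu).1, Or.inr (key a ha hau).2,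
        Or.inr (key b hb hbu).2⟩
  · intro v w hvw
    by_cases hg : Good G F v w
    · exact hg.mono subset_union_left
    · exact good_of_mem hvw (Or.inr ⟨v, hvw, hg⟩)

end Cub

end Pool.Agent.P.MP_bd6b97_lc.G4
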