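import Pool.Agent.P.MP_bd6b97_lc.G4.Basic

set_option autoImplicit false

namespace Pool.Agent.P.MP_bd6b97_lc.G4

open Set Function MeasureTheory

section novikov

variable {α : Type} [MeasurableSpace α]

/-- a sequence of sets with measurable supersets of empty intersection -/
def SepSeq (X : ℕ → Set α) : Prop :=
  ∃ B : ℕ → Set α, (∀ n, MeasurableSet (B n)) ∧ (∀ n, X n ⊆ B n) ∧ ∀ x, ∃ n, x ∉ B n

lemma sepSeq_union {X : ℕ → Set α} {Y : ℕ → ℕ → Set α} (k : ℕ) (hk : X k ⊆ ⋃ j, Y j k)
    (hn : ∀ j n, n ≠ k → X n ⊆ Y j n) (h : ∀ j, SepSeq (Y j)) : SepSeq X := by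
  classical
  choose B hB hYB hx using h
  refine ⟨fun n => if n = k then ⋃ j, B j k else ⋂ j, B j n, fun n => ?_, fun n => ?_, fun x => ?_⟩
  · beta_reduce
    split_ifs
    · exact MeasurableSet.iUnion fun j => hB j k
    · exact MeasurableSet.iInter fun j => hB j n
  · beta_reduce
    split_ifs with h
    · subst h
      exact hk.trans (iUnion_mono fun j => hYB j n)
    · exact subset_iInter fun j => (hn j n h).trans (hYB j n)
  · by_cases h : x ∈ ⋃ j, B j k
    · obtain ⟨j, hj⟩ := mem_iUnion.1 h
      obtain ⟨n, hn'⟩ := hx j x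
      have hnk : n ≠ k := fun e => hn' (e ▸ hj)
      refine ⟨n, ?_⟩
      simp only [hnk, if_false]
      exact fun h' => hn' (mem_iInter.1 h' j)
    · exact ⟨k, by simpa only [if_true] using h⟩

lemma exists_cyl {O : Set (ℕ → ℕ)} (hO : IsOpen O) {z : ℕ → ℕ} (hz : z ∈ O) :
    ∃ K, ∀ z' : ℕ → ℕ, (∀ i, i < K → z' i = z i) → z' ∈ O := by
  obtain ⟨I, u, hu, hI⟩ := isOpen_pi_iff.1 hO z hz
  obtain ⟨K, hK⟩ := I.bddAbove
  refine ⟨K + 1, fun z' hz' => hI fun i hi => ?_⟩
  rw [hz' i (Nat.lt_succ_of_le (hK hi))]
  exact (hu i hi).2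

/-- Novikov's separation theorem -/
theorem novikov [TopologicalSpace α] [T2Space α] [OpensMeasurableSpace α] (A : ℕ → Set α)
    (hA : ∀ n, AnalyticSet (A n)) (h0 : ∀ x, ∃ n, x ∉ A n) : SepSeq A := by
  classical
  by_cases he : ∃ k, A k = ∅
  · obtain ⟨k, hk⟩ := he
    refine ⟨fun n => if n = k then ∅ else univ, fun n => ?_, fun n => ?_, fun x => ⟨k, by simp⟩⟩
    · beta_reduce
      split_ifs
      · exact MeasurableSet.empty
      · exact MeasurableSet.univ
    · beta_reduce
      split_ifs with h
      · subst h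
        exact hk.subset
      · exact subset_univ _
  have hf : ∀ n, ∃ f : (ℕ → ℕ) → α, Continuous f ∧ range f = A n := by
    intro n
    have := hA n
    rw [AnalyticSet] at this
    exact this.resolve_left fun h => he ⟨n, h⟩
  choose f hfc hfr using hf
  let X : (ℕ → ℕ) → ℕ → ℕ → Set α := fun y m n =>
    f n '' {z | ∀ i, Nat.pair n i < m → z i = y (Nat.pair n i)}
  by_contra hcon
  have hstart : ¬ SepSeq (X 0 0) := by
    rintro ⟨B, hB, hXB, hx⟩
    refine hcon ⟨B, hB, fun n => ?_, hx⟩
    rw [← hfr n]
    rintro _ ⟨z, rfl⟩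
    exact hXB n ⟨z, fun i hi => absurd hi (Nat.not_lt_zero _), rfl⟩
  have hstep : ∀ m y, ¬ SepSeq (X y m) → ∃ j, ¬ SepSeq (X (update y m j) (m + 1)) := by
    intro m y hy
    by_contra hall
    push Not at hall
    refine hy (sepSeq_union (Y := fun j => X (update y m j) (m + 1)) m.unpair.1 ?_ ?_ hall)
    · rintro _ ⟨z, hz, rfl⟩
      refine mem_iUnion.2 ⟨z m.unpair.2, z, fun i hi => ?_, rfl⟩
      by_cases h : Nat.pair m.unpair.1 i = m
      · have hi' : i = m.unpair.2 := by
          have := congrArg (fun t => t.unpair.2) h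
          simpa using this
        rw [h, update_self, hi']
      · rw [update_of_ne h]
        exact hz i (by omega)
    · rintro j n hn _ ⟨z, hz, rfl⟩
      refine ⟨z, fun i hi => ?_, rfl⟩
      have h : Nat.pair n i ≠ m := by
        intro h
        apply hn
        have := congrArg (fun t => t.unpair.1) h
        simpa using this
      rw [update_of_ne h]
      exact hz i (by omega)
  choose! J hJ using hstep
  let g : ℕ → ℕ → ℕ := fun m => Nat.rec 0 (fun m y => update y m (J m y)) m
  have hg : ∀ m, g (m + 1) = update (g m) m (J m (g m)) := fun m => rfl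
  have hN : ∀ m, ¬ SepSeq (X (g m) m) := by
    intro m
    induction m with
    | zero => exact hstart
    | succ m ih => exact hJ m _ ih
  let y : ℕ → ℕ := fun i => g (i + 1) i
  have hy : ∀ m i, i < m → g m i = y i := by
    intro m
    induction m with
    | zero => intro i hi; omega
    | succ m ih =>
      intro i hi
      by_cases h : i = m
      · subst h; rfl
      · rw [hg, update_of_ne h]
        exact ih i (by omega)
  let z : ℕ → ℕ → ℕ := fun n i => y (Nat.pair n i)
  obtain ⟨n, hn⟩ := h0 (f 0 (z 0))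
  have hne : f n (z n) ≠ f 0 (z 0) := by
    intro h
    apply hn
    rw [← h, ← hfr n]
    exact mem_range_self _
  have hn0 : n ≠ 0 := by
    rintro rfl
    exact hne rfl
  obtain ⟨U, W, hU, hW, hzU, hzW, hUW⟩ := t2_separation hne
  obtain ⟨K1, hK1⟩ := exists_cyl (hU.preimage (hfc n)) (z := z n) hzU
  obtain ⟨K0, hK0⟩ := exists_cyl (hW.preimage (hfc 0)) (z := z 0) hzW
  have hmono : ∀ a i K, i < K → Nat.pair a i < Nat.pair a K := fun a i K h =>
    Nat.pair_lt_pair_right a h
  refine hN (Nat.pair n K1 + Nat.pair 0 K0)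
    ⟨fun k => if k = n then U else if k = 0 then W else univ, fun k => ?_, fun k => ?_, fun x => ?_⟩
  · beta_reduce
    split_ifs
    · exact hU.measurableSet
    · exact hW.measurableSet
    · exact MeasurableSet.univ
  · beta_reduce
    split_ifs with h1 h2
    · subst h1
      rintro _ ⟨w, hw, rfl⟩
      refine hK1 w fun i hi => ?_
      have := hmono k i K1 hi
      rw [hw i (by omega)]
      exact hy _ _ (by omega)
    · subst h2
      rintro _ ⟨w, hw, rfl⟩
      refine hK0 w fun i hi => ?_
      have := hmono 0 i K0 hi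
      rw [hw i (by omega)]
      exact hy _ _ (by omega)
    · exact subset_univ _
  · by_cases hx : x ∈ U
    · refine ⟨0, ?_⟩
      simp only [hn0.symm, if_false, if_true]
      exact Set.disjoint_left.1 hUW hx
    · exact ⟨n, by simpa only [if_true] using hx⟩

end novikov

section tuples

variable {V : Type}

/-- an increasing tuple of points of a set -/
def Tup (io : V → ℝ) (S : Set V) {n : ℕ} (x : Fin n → V) : Prop :=
  (∀ i, x i ∈ S) ∧ ∀ i j, i < j → io (x i) < io (x j)

variable {io : V → ℝ} {S : Set V} {n : ℕ}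

lemma Tup.strictMono {x : Fin n → V} (h : Tup io S x) : StrictMono (io ∘ x) :=
  fun i j hij => h.2 i j hij

lemma Tup.encard_range {x : Fin n → V} (h : Tup io S x) : (range x).encard = n := by
  rw [← image_univ, h.strictMono.injective.of_comp.encard_image]
  simp

lemma Tup.le_encard {x : Fin n → V} (h : Tup io S x) : (n : ℕ∞) ≤ S.encard := by
  rw [← h.encard_range]
  exact encard_le_encard (range_subset_iff.2 h.1)

lemma Tup.range_eq {x : Fin n → V} (h : Tup io S x) (hS : S.encard ≤ n) : range x = S :=
  (finite_range x).eq_of_subset_of_encard_le (range_subset_iff.2 h.1) (h.encard_range ▸ hS)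

lemma Tup.unique (hio : Injective io) {x y : Fin n → V} (hx : Tup io S x) (hy : Tup io S y)
    (hS : S.encard ≤ n) : x = y := by
  have h : range (io ∘ x) = range (io ∘ y) := by
    rw [range_comp, range_comp, hx.range_eq hS, hy.range_eq hS]
  exact hio.comp_left ((hx.strictMono.range_inj hy.strictMono).1 h)

lemma exists_tup (hio : Injective io) (h : (n : ℕ∞) ≤ S.encard) :
    ∃ x : Fin n → V, Tup io S x := by
  classical
  obtain ⟨t, htS, ht⟩ := exists_subset_encard_eq h
  have hfin : t.Finite := finite_of_encard_eq_coe ht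
  have hcard : (hfin.toFinset.image io).card = n := by
    rw [Finset.card_image_of_injective _ hio]
    have := hfin.encard_eq_coe_toFinset_card
    rw [ht] at this
    exact_mod_cast this.symm
  have h1 : ∀ i, ∃ v ∈ S, io v = (hfin.toFinset.image io).orderEmbOfFin hcard i := by
    intro i
    obtain ⟨v, hv, hv'⟩ := Finset.mem_image.1 (Finset.orderEmbOfFin_mem _ hcard i)
    exact ⟨v, htS (by simpa using hv), hv'⟩
  choose x hx hx' using h1
  refine ⟨x, hx, fun i j hij => ?_⟩
  rw [hx', hx']
  exact (Finset.orderEmbOfFin _ hcard).strictMono hij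

end tuples

section cover

variable {V : Type} [MeasurableSpace V] [StandardBorelSpace V]

/-- a relation is covered by a countable set of measurable maps -/
def CovRel (E : V → V → Prop) : Prop :=
  ∃ S : Set (V → V), S.Countable ∧ (∀ f ∈ S, Measurable f) ∧ ∀ v w, E v w → ∃ f ∈ S, f v = w

omit [StandardBorelSpace V] in
lemma meas_tup {E : V → V → Prop} (hE : Measurable fun p : V × V => E p.1 p.2) {io : V → ℝ}
    (hio : Measurable io) (n : ℕ) :
    MeasurableSet {q : V × (Fin n → V) | Tup io {w | E q.1 w} q.2} := by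
  refine measurableSet_setOfPred.2 (Measurable.and ?_ ?_)
  · exact Measurable.forall fun i =>
      hE.comp (f := fun q : V × (Fin n → V) => (q.1, q.2 i)) (by fun_prop)
  · exact Measurable.forall fun i => Measurable.forall fun j =>
      measurable_const.imp (Measurable.lt (by fun_prop) (by fun_prop))

lemma covRel_of_bounded (D : ℕ) : ∀ E : V → V → Prop, (Measurable fun p : V × V => E p.1 p.2) →
    (∀ v, {w | E v w}.encard ≤ D) → CovRel E := by
  classical
  let io := embeddingReal V
  have hio : Measurable io := measurable_embeddingReal V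
  have hinj : Injective io := (measurableEmbedding_embeddingReal V).injective
  induction D with
  | zero =>
    intro E _ hD
    refine ⟨∅, countable_empty, by simp, fun v w h => ?_⟩
    have h1 : {w | E v w} = ∅ := encard_eq_zero.1 (by simpa using hD v)
    exact absurd (show w ∈ {w | E v w} from h) (by simp [h1])
  | succ D ih =>
    intro E hE hD
    let T : Set (V × (Fin (D + 1) → V)) := {q | Tup io {w | E q.1 w} q.2}
    have hT : MeasurableSet T := meas_tup hE hio _
    have : StandardBorelSpace T := hT.standardBorel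
    let pr : T → V := fun q => q.1.1
    have hpr : Measurable pr := by fun_prop
    have hprinj : Injective pr := by
      rintro ⟨⟨v, x⟩, hx⟩ ⟨⟨v', y⟩, hy⟩ h
      have h' : v = v' := h
      subst h'
      have := Tup.unique hinj hx hy (hD v)
      subst this
      rfl
    have hemb : MeasurableEmbedding pr := hpr.measurableEmbedding hprinj
    have hran : Measurable fun v => v ∈ range pr :=
      measurableSet_setOfPred.1 hemb.measurableSet_range
    obtain ⟨S, hS, hSm, hSc⟩ := ih (fun v w => E v w ∧ v ∉ range pr)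
      (hE.and (hran.comp measurable_fst).not) (by
        intro v
        by_cases hv : v ∈ range pr
        · simp [hv]
        · have h1 : {w | E v w ∧ v ∉ range pr} = {w | E v w} := by simp [hv]
          rw [h1]
          by_contra hcon
          have h2 : ((D + 1 : ℕ) : ℕ∞) ≤ {w | E v w}.encard := by
            push_cast
            exact Order.add_one_le_of_lt (not_le.1 hcon)
          obtain ⟨x, hx⟩ := exists_tup hinj h2
          exact hv ⟨⟨(v, x), hx⟩, rfl⟩)
    let g : Fin (D + 1) → V → V := fun i => extend pr (fun q => q.1.2 i) id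
    refine ⟨S ∪ range g, hS.union (countable_range g), ?_, fun v w h => ?_⟩
    · rintro f (hf | ⟨i, rfl⟩)
      · exact hSm f hf
      · exact hemb.measurable_extend (by fun_prop) measurable_id
    · by_cases hv : v ∈ range pr
      · obtain ⟨q, rfl⟩ := hv
        have h1 := Tup.range_eq q.2 (hD q.1.1)
        obtain ⟨i, hi⟩ : w ∈ range q.1.2 := h1 ▸ h
        refine ⟨g i, Or.inr ⟨i, rfl⟩, ?_⟩
        rw [← hi]
        exact hprinj.extend_apply _ _ q
      · obtain ⟨f, hf, hf'⟩ := hSc v w ⟨h, hv⟩
        exact ⟨f, Or.inl hf, hf'⟩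

/-- the Lusin-Novikov theorem for finite sections -/
theorem covRel_of_finite {E : V → V → Prop} (hE : Measurable fun p : V × V => E p.1 p.2)
    (hf : ∀ v, {w | E v w}.Finite) : CovRel E := by
  classical
  let io := embeddingReal V
  have hio : Measurable io := measurable_embeddingReal V
  have hinj : Injective io := (measurableEmbedding_embeddingReal V).injective
  let _ := upgradeStandardBorel V
  let A : ℕ → Set V := fun n => Prod.fst '' {q : V × (Fin n → V) | Tup io {w | E q.1 w} q.2}
  have hA : ∀ n, AnalyticSet (A n) := fun n =>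
    (meas_tup hE hio n).analyticSet_image measurable_fst
  have h0 : ∀ v, ∃ n, v ∉ A n := by
    intro v
    refine ⟨{w | E v w}.ncard + 1, ?_⟩
    rintro ⟨⟨v', x⟩, hx, hv⟩
    have hv' : v' = v := hv
    have h1 : _ ≤ {w | E v' w}.encard := Tup.le_encard hx
    rw [hv', ← (hf v).cast_ncard_eq] at h1
    have h2 : {w | E v w}.ncard + 1 ≤ {w | E v w}.ncard := by exact_mod_cast h1
    omega
  obtain ⟨B, hB, hAB, hx⟩ := novikov A hA h0
  have h1 : ∀ n, CovRel fun v w => E v w ∧ v ∉ B n := by
    intro n
    refine covRel_of_bounded n _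
      (hE.and ((measurableSet_setOfPred.1 (hB n)).comp measurable_fst).not) fun v => ?_
    by_cases hv : v ∈ B n
    · simp [hv]
    · have h1 : {w | E v w ∧ v ∉ B n} = {w | E v w} := by simp [hv]
      rw [h1]
      by_contra hcon
      obtain ⟨x, hx⟩ := exists_tup hinj (not_le.1 hcon).le
      exact hv (hAB n ⟨(v, x), hx, rfl⟩)
  choose S hS hSm hSc using h1
  refine ⟨⋃ n, S n, countable_iUnion hS, fun f hf => ?_, fun v w h => ?_⟩
  · obtain ⟨n, hn⟩ := mem_iUnion.1 hf
    exact hSm n f hn
  · obtain ⟨n, hn⟩ := hx v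
    obtain ⟨f, hf, hf'⟩ := hSc n v w ⟨h, hn⟩
    exact ⟨f, mem_iUnion.2 ⟨n, hf⟩, hf'⟩

omit [StandardBorelSpace V] in
lemma cov_of_covRel {G : SimpleGraph V} (h : CovRel G.Adj) : Cov G := by
  obtain ⟨S, hS, hSm, hSc⟩ := h
  obtain ⟨f, hf⟩ := (hS.insert id).exists_eq_range (insert_nonempty _ _)
  refine ⟨f, fun i => ?_, fun u v huv => ?_⟩
  · have : f i ∈ insert id S := hf ▸ mem_range_self i
    rcases this with h | h
    · rw [h]; exact measurable_id
    · exact hSm _ h
  · obtain ⟨g, hg, hg'⟩ := hSc u v huv
    obtain ⟨i, hi⟩ : g ∈ range f := hf ▸ mem_insert_of_mem _ hg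
    exact ⟨i, hi ▸ hg'⟩

theorem cov_of_finite {G : SimpleGraph V} (hG : MeasurableSet {p : V × V | G.Adj p.1 p.2})
    (hf : ∀ v, {w | G.Adj v w}.Finite) : Cov G :=
  cov_of_covRel (covRel_of_finite (measurableSet_setOfPred.1 hG) hf)

end cover

end Pool.Agent.P.MP_bd6b97_lc.G4
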