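import Pool.Agent.P.MP_bd6b97_lc.G4.Core

set_option autoImplicit false

namespace Pool.Agent.P.MP_bd6b97_lc.G4

open Set Function Relation MeasureTheory

variable {V : Type}

/-- the dart from `u` to `v` extends to a finite set whose only possible leaves are `u` and
points of `F` -/
def Good (G : SimpleGraph V) (F : Set V) (u v : V) : Prop :=
  ∃ X : Set V, X.Finite ∧ u ∈ X ∧ v ∈ X ∧ (∀ x ∈ X, G.Reachable u x) ∧
    ∀ x ∈ X, x ≠ u → x ∉ F → ∃ a b, a ≠ b ∧ G.Adj x a ∧ G.Adj x b ∧ a ∈ X ∧ b ∈ X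

variable {G : SimpleGraph V}

open Classical in
/-- number of monochromatic darts inside a finite set -/
noncomputable def pot (G : SimpleGraph V) (T : Finset V) (d : V → Bool) : ℤ :=
  ∑ a ∈ T, ∑ b ∈ T, if G.Adj a b ∧ d a = d b then 1 else 0

lemma pot_nonneg (T : Finset V) (d : V → Bool) : 0 ≤ pot G T d := by
  unfold pot
  refine Finset.sum_nonneg fun a _ => Finset.sum_nonneg fun b _ => ?_
  split_ifs <;> norm_num

open Classical in
lemma pot_step (T : Finset V) (d d' : V → Bool) (W : V → Prop)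
    (hd : ∀ v, d' v = if W v then !d v else d v)
    (hW : ∀ a b, G.Adj a b → W a → ¬ W b) :
    pot G T d' = pot G T d + 2 * ∑ a ∈ T, if W a then
      (2 * ((T.filter fun b => Bi G d a b).card : ℤ) - (T.filter fun b => G.Adj a b).card)
      else 0 := by
  let H : V → V → ℤ := fun a b => if W a then
    (2 * (if Bi G d a b then 1 else 0) - (if G.Adj a b then 1 else 0)) else 0
  have h1 : ∀ a b, (if G.Adj a b ∧ d' a = d' b then (1 : ℤ) else 0) =
      (if G.Adj a b ∧ d a = d b then (1 : ℤ) else 0) + H a b + H b a := by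
    intro a b
    by_cases hab : G.Adj a b
    · have hba := hab.symm
      have h3 := hW a b hab
      simp only [H, Bi, hab, hba, hd, true_and]
      by_cases ha : W a <;> by_cases hb : W b
      · exact absurd hb (h3 ha)
      all_goals
        simp only [ha, hb, if_true, if_false]
        cases d a <;> cases d b <;> simp
    · have hba : ¬ G.Adj b a := fun h => hab h.symm
      simp [H, Bi, hab, hba]
  have h2 : ∑ a ∈ T, ∑ b ∈ T, H b a = ∑ a ∈ T, ∑ b ∈ T, H a b := Finset.sum_comm
  have h3 : ∀ a, ∑ b ∈ T, H a b = if W a then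
      (2 * ((T.filter fun b => Bi G d a b).card : ℤ) - (T.filter fun b => G.Adj a b).card)
      else 0 := by
    intro a
    by_cases ha : W a
    · simp only [H, ha, if_true, Finset.sum_sub_distrib, ← Finset.mul_sum, Finset.sum_boole]
    · simp [H, ha]
  unfold pot
  simp only [h1, Finset.sum_add_distrib, h2, h3]
  ring

open Classical in
lemma card_bi_le (T : Finset V) {d : V → Bool} {a : V} (h : ¬ Happy G d a) :
    (T.filter fun b => Bi G d a b).card ≤ 1 := by
  rw [Finset.card_le_one]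
  intro x hx y hy
  by_contra hxy
  exact h ⟨x, y, hxy, (Finset.mem_filter.1 hx).2, (Finset.mem_filter.1 hy).2⟩

variable [MeasurableSpace V]

namespace Cub

variable (C : Cub G)

/-- vertices flipped by a single-vertex step -/
def FW (n : ℕ) (d : V → Bool) (v : V) : Prop :=
  ¬ Happy G d v ∧ v ∈ C.U n ∧ ∀ w, G.Adj v w → w ∉ C.U n

open Classical in
/-- one single-vertex step -/
noncomputable def fstep (n : ℕ) (d : V → Bool) (v : V) : Bool :=
  if C.FW n d v then !d v else d v

lemma meas_fstep (n : ℕ) {d : V → Bool} (hd : Measurable d) : Measurable (C.fstep n d) := by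
  classical
  have hU : Measurable fun v => v ∈ C.U n := measurableSet_setOfPred.1 (C.meas_U n)
  have h1 : Measurable (C.FW n d) :=
    (C.meas_happy hd).not.and (hU.and (C.meas_all' measurable_id (fun _ _ h => h.reachable)
      (C.meas_adj measurable_fst measurable_snd) (hU.comp measurable_snd).not))
  unfold fstep
  refine Measurable.ite (measurableSet_setOfPred.2 h1) ?_ hd
  exact (measurable_of_countable fun b : Bool => !b).comp hd

/-- the single-vertex dynamics -/
noncomputable def dyn (c : V → Bool) : ℕ → V → Bool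
  | 0 => c
  | n + 1 => C.fstep n (dyn c n)

lemma meas_dyn {c : V → Bool} (hc : Measurable c) (n : ℕ) : Measurable (C.dyn c n) := by
  induction n with
  | zero => exact hc
  | succ n ih => exact C.meas_fstep n ih

lemma dyn_F {c : V → Bool} {F : Set V} (hF : Leafless G c F) (n : ℕ) :
    ∀ v ∈ F, C.dyn c n v = c v ∧ ¬ C.FW n (C.dyn c n) v := by
  have key : ∀ d : V → Bool, (∀ v ∈ F, d v = c v) → ∀ v ∈ F, Happy G d v := by
    intro d hd v hv
    obtain ⟨a, b, hab, ha, hb, haF, hbF⟩ := hF v hv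
    refine ⟨a, b, hab, ⟨ha.1, ?_⟩, ⟨hb.1, ?_⟩⟩
    · rw [hd v hv, hd a haF]; exact ha.2
    · rw [hd v hv, hd b hbF]; exact hb.2
  induction n with
  | zero => exact fun v hv => ⟨rfl, fun h => h.1 (key c (fun _ _ => rfl) v hv)⟩
  | succ n ih =>
    have h1 : ∀ v ∈ F, C.dyn c (n + 1) v = c v := by
      intro v hv
      have := ih v hv
      simp only [dyn, fstep, this.2, if_false]
      exact this.1
    exact fun v hv => ⟨h1 v hv, fun h => h.1 (key _ h1 v hv)⟩

lemma dyn_stable {c : V → Bool} {F : Set V} (hF : Leafless G c F)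
    (hG : ∀ v w, G.Adj v w → Good G F v w) (v : V) :
    ∃ N, ∀ n, N ≤ n → ¬ C.FW n (C.dyn c n) v := by
  classical
  have : Finite {w | G.Adj v w} := (C.finite_nbr v).to_subtype
  choose X hXf hX1 hX2 hX3 hX4 using fun i : {w | G.Adj v w} => hG v i i.2
  have hfin : (⋃ i, X i).Finite := Set.finite_iUnion hXf
  set T := hfin.toFinset with hT
  have hmem : ∀ x, x ∈ T ↔ ∃ i, x ∈ X i := by
    intro x
    rw [hT, Set.Finite.mem_toFinset, mem_iUnion]
  obtain ⟨a0, b0, c0, hab0, hac0, hbc0, ha0, hb0, hc0⟩ := C.three v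
  have h3 : 3 ≤ (T.filter fun b => G.Adj v b).card := by
    have hin : ∀ x, G.Adj v x → x ∈ T.filter fun b => G.Adj v b := fun x hx =>
      Finset.mem_filter.2 ⟨(hmem _).2 ⟨⟨x, hx⟩, hX2 ⟨x, hx⟩⟩, hx⟩
    exact Finset.two_lt_card_iff.2 ⟨a0, b0, c0, hin _ ha0, hin _ hb0, hin _ hc0, hab0, hac0, hbc0⟩
  have h2 : ∀ x ∈ T, x ∉ F → 2 ≤ (T.filter fun b => G.Adj x b).card := by
    intro x hx hxF
    by_cases hxv : x = v
    · subst hxv; omega
    obtain ⟨i, hi⟩ := (hmem x).1 hx
    obtain ⟨a, b, hab, ha, hb, haX, hbX⟩ := hX4 i x hi hxv hxF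
    exact Finset.one_lt_card.2 ⟨a, Finset.mem_filter.2 ⟨(hmem _).2 ⟨i, haX⟩, ha⟩, b,
      Finset.mem_filter.2 ⟨(hmem _).2 ⟨i, hbX⟩, hb⟩, hab⟩
  have hvT : v ∈ T := (hmem v).2 ⟨⟨a0, ha0⟩, hX1 _⟩
  have hstep : ∀ n, pot G T (C.dyn c (n + 1)) ≤ pot G T (C.dyn c n) ∧
      (C.FW n (C.dyn c n) v → pot G T (C.dyn c (n + 1)) < pot G T (C.dyn c n)) := by
    intro n
    have h := pot_step (G := G) T (C.dyn c n) (C.dyn c (n + 1)) (C.FW n (C.dyn c n))
      (fun v => rfl) (fun a b hab ha hb => ha.2.2 b hab hb.2.1)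
    have hle : ∀ a ∈ T, (if C.FW n (C.dyn c n) a then
        (2 * ((T.filter fun b => Bi G (C.dyn c n) a b).card : ℤ) -
          (T.filter fun b => G.Adj a b).card) else 0) ≤ 0 := by
      intro a ha
      split_ifs with hw
      · have h4 := card_bi_le T hw.1
        have h5 := h2 a ha fun haF => (C.dyn_F hF n a haF).2 hw
        omega
      · exact le_rfl
    constructor
    · have := Finset.sum_nonpos hle
      omega
    · intro hw
      have := Finset.sum_lt_sum hle ⟨v, hvT, by
        have h4 := card_bi_le T hw.1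
        rw [if_pos hw]
        omega⟩
      simp only [Finset.sum_const_zero] at this
      omega
  by_contra hcon
  push Not at hcon
  have hanti : Antitone fun n => pot G T (C.dyn c n) :=
    antitone_nat_of_succ_le fun n => (hstep n).1
  have key : ∀ k : ℕ, ∃ n, pot G T (C.dyn c n) ≤ pot G T c - k := by
    intro k
    induction k with
    | zero => exact ⟨0, by simp [dyn]⟩
    | succ k ih =>
      obtain ⟨n, hn⟩ := ih
      obtain ⟨m, hm, hw⟩ := hcon n
      refine ⟨m + 1, ?_⟩
      have h1 := (hstep m).2 hw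
      have h2 : pot G T (C.dyn c m) ≤ pot G T (C.dyn c n) := hanti hm
      push_cast
      omega
  obtain ⟨n, hn⟩ := key ((pot G T c).toNat + 1)
  have := pot_nonneg (G := G) T (C.dyn c n)
  push_cast at hn
  omega

include C in
/-- if all darts are good then the dynamics converges to a happy colouring -/
theorem exists_happy_of_good {c : V → Bool} (hc : Measurable c) {F : Set V}
    (hF : Leafless G c F) (hG : ∀ v w, G.Adj v w → Good G F v w) :
    ∃ d : V → Bool, Measurable d ∧ ∀ v, Happy G d v := by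
  refine ⟨lim (C.dyn c), meas_lim (C.meas_dyn hc), fun v => ?_⟩
  have hst : ∀ x, ∃ N, ∀ n, N ≤ n → C.dyn c (n + 1) x = C.dyn c n x := by
    intro x
    obtain ⟨N, hN⟩ := C.dyn_stable hF hG x
    exact ⟨N, fun n hn => by simp only [dyn, fstep, hN n hn, if_false]⟩
  obtain ⟨N, hN⟩ := lim_eq_finite (d := C.dyn c) ((C.finite_nbr v).insert v) fun x _ => hst x
  obtain ⟨M, hM⟩ := C.dyn_stable hF hG v
  obtain ⟨n, hn, h1, h2⟩ := C.sep {v} {w | G.Adj v w} (finite_singleton v) (C.finite_nbr v)
    (by simp) (max N M)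
  by_contra hcon
  refine hM n ((le_max_right _ _).trans hn) ⟨?_, h1 rfl, h2⟩
  have hn' := (le_max_left _ _).trans hn
  rintro ⟨a, b, hab, ha, hb⟩
  refine hcon ⟨a, b, hab, ⟨ha.1, ?_⟩, ⟨hb.1, ?_⟩⟩
  · rw [← hN n hn' v (mem_insert _ _), ← hN n hn' a (mem_insert_of_mem _ ha.1)]
    exact ha.2
  · rw [← hN n hn' v (mem_insert _ _), ← hN n hn' b (mem_insert_of_mem _ hb.1)]
    exact hb.2

end Cub

end Pool.Agent.P.MP_bd6b97_lc.G4
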