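import Pool.Agent.P.MP_bd6b97_lc.G4.Main
import Pool.Agent.P.MP_bd6b97_lc.G4.Cover

set_option autoImplicit false

namespace Pool.Agent.P.MP_bd6b97_lc.G4

open Set Function MeasureTheory

/-- oriented edges of the gadget of type `t` on seven points; the point `0` is the old vertex -/
def gam0 (t : Fin 4) (i j : Fin 7) : Bool :=
  decide ((1 ≤ i ∧ i ≤ 3 ∧ 4 ≤ j ∧ ¬ (t = 1 ∧ i = 1 ∧ j = 4)) ∨
    (i = 0 ∧ ((t = 0 ∧ 1 ≤ j ∧ j ≤ 3) ∨ (t = 1 ∧ (j = 1 ∨ j = 4)) ∨ (t = 2 ∧ j = 1))))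

/-- edges of the gadget -/
def gam (t : Fin 4) (i j : Fin 7) : Bool := gam0 t i j || gam0 t j i

lemma gam_symm (t : Fin 4) (i j : Fin 7) : gam t i j = gam t j i := Bool.or_comm _ _

lemma gam_irrefl : ∀ (t : Fin 4) (i : Fin 7), gam t i i = false := by decide

lemma gam_three : ∀ (t : Fin 4) (i : Fin 7), (i ≠ 0 ∨ t = 0) → ∃ a b c : Fin 7,
    a ≠ b ∧ a ≠ c ∧ b ≠ c ∧ gam t i a = true ∧ gam t i b = true ∧ gam t i c = true := by
  decide +kernel

lemma gam_t3 : ∀ j : Fin 7, gam 3 0 j = false := by decide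

lemma gam_t2 : ∀ j : Fin 7, gam 2 0 j = true → j = 1 := by decide

lemma gam_force : ∀ e : Fin 7 → Bool, ¬ ∀ i : Fin 7, ∃ j k : Fin 7, j ≠ k ∧
    (gam 1 i j = true ∧ e i ≠ e j) ∧ (gam 1 i k = true ∧ e i ≠ e k) := by
  decide +kernel

variable {V : Type}

open Classical in
/-- the degree, truncated at three -/
noncomputable def tau (G : SimpleGraph V) (v : V) : Fin 4 :=
  if ((3 : ℕ) : ℕ∞) ≤ {w | G.Adj v w}.encard then 3
  else if ((2 : ℕ) : ℕ∞) ≤ {w | G.Adj v w}.encard then 2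
  else if ((1 : ℕ) : ℕ∞) ≤ {w | G.Adj v w}.encard then 1 else 0

/-- the graph with a gadget attached to every vertex -/
def ext (G : SimpleGraph V) : SimpleGraph (V × Fin 7) where
  Adj p q := (p.2 = 0 ∧ q.2 = 0 ∧ G.Adj p.1 q.1) ∨ (p.1 = q.1 ∧ gam (tau G p.1) p.2 q.2 = true)
  symm := ⟨by
    rintro p q (⟨h1, h2, h3⟩ | ⟨h1, h2⟩)
    · exact Or.inl ⟨h2, h1, h3.symm⟩
    · exact Or.inr ⟨h1.symm, by rw [← h1, gam_symm]; exact h2⟩⟩
  loopless := ⟨by
    rintro p (⟨-, -, h⟩ | ⟨-, h⟩)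
    · exact G.irrefl h
    · simp [gam_irrefl] at h⟩

variable {G : SimpleGraph V}

lemma tau_spec (hf : ∀ v, {w | G.Adj v w}.Finite) (v : V) :
    (tau G v : ℕ) = min 3 {w | G.Adj v w}.ncard := by
  unfold tau
  rw [← (hf v).cast_ncard_eq]
  simp only [Nat.cast_le]
  split_ifs <;> simp <;> omega

lemma ext_finite (hf : ∀ v, {w | G.Adj v w}.Finite) (p : V × Fin 7) :
    {q | (ext G).Adj p q}.Finite := by
  refine (((hf p.1).insert p.1).prod (finite_univ (α := Fin 7))).subset ?_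
  rintro q (⟨-, -, h⟩ | ⟨h, -⟩)
  · exact ⟨Or.inr h, mem_univ _⟩
  · exact ⟨Or.inl h.symm, mem_univ _⟩

lemma ext_three (hf : ∀ v, {w | G.Adj v w}.Finite) : Three (ext G) := by
  rintro ⟨v, i⟩
  by_cases h : i ≠ 0 ∨ tau G v = 0
  · obtain ⟨a, b, c, hab, hac, hbc, ha, hb, hc⟩ := gam_three _ _ h
    exact ⟨(v, a), (v, b), (v, c), by simpa using hab, by simpa using hac, by simpa using hbc,
      Or.inr ⟨rfl, ha⟩, Or.inr ⟨rfl, hb⟩, Or.inr ⟨rfl, hc⟩⟩
  push Not at h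
  obtain ⟨rfl, h0⟩ := h
  have hs := tau_spec hf v
  have hcase : ∀ t : Fin 4, t ≠ 0 → t = 1 ∨ t = 2 ∨ t = 3 := by decide
  rcases hcase _ h0 with h | h | h
  · rw [h] at hs
    have h1 : 0 < {w | G.Adj v w}.ncard := by simp at hs; omega
    obtain ⟨a, ha⟩ := (ncard_pos (hf v)).1 h1
    refine ⟨(a, 0), (v, 1), (v, 4), by simp, by simp, by simp, Or.inl ⟨rfl, rfl, ha⟩,
      Or.inr ⟨rfl, ?_⟩, Or.inr ⟨rfl, ?_⟩⟩ <;> simp only [h] <;> decide
  · rw [h] at hs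
    have h1 : 1 < {w | G.Adj v w}.ncard := by simp at hs; omega
    obtain ⟨a, ha, b, hb, hab⟩ := (one_lt_ncard (hf v)).1 h1
    refine ⟨(a, 0), (b, 0), (v, 1), by simpa using hab, by simp, by simp, Or.inl ⟨rfl, rfl, ha⟩,
      Or.inl ⟨rfl, rfl, hb⟩, Or.inr ⟨rfl, ?_⟩⟩
    simp only [h]
    decide
  · rw [h] at hs
    have h1 : 2 < {w | G.Adj v w}.ncard := by simp at hs; omega
    obtain ⟨a, ha, b, hb, c, hc, hab, hac, hbc⟩ := (two_lt_ncard (hf v)).1 h1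
    exact ⟨(a, 0), (b, 0), (c, 0), by simpa using hab, by simpa using hac, by simpa using hbc,
      Or.inl ⟨rfl, rfl, ha⟩, Or.inl ⟨rfl, rfl, hb⟩, Or.inl ⟨rfl, rfl, hc⟩⟩

lemma ext_bi {d : V × Fin 7 → Bool} {v : V} {i : Fin 7} {q : V × Fin 7}
    (h : Bi (ext G) d (v, i) q) :
    (i = 0 ∧ q.2 = 0 ∧ Bi G (fun w => d (w, 0)) v q.1) ∨
      (q.1 = v ∧ gam (tau G v) i q.2 = true ∧ d (v, i) ≠ d (v, q.2)) := by
  obtain ⟨w, j⟩ := q
  obtain ⟨⟨h1, h2, h3⟩ | ⟨h1, h2⟩, h4⟩ := h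
  · simp only at h1 h2 h3
    subst h1 h2
    exact Or.inl ⟨rfl, rfl, h3, h4⟩
  · simp only at h1 h2
    subst h1
    exact Or.inr ⟨rfl, h2, h4⟩

lemma happy_of_ext {d : V × Fin 7 → Bool} (hd : ∀ p, Happy (ext G) d p) (v : V) :
    (tau G v = 3 → Happy G (fun w => d (w, 0)) v) ∧
      (tau G v ≠ 0 → ∃ w, Bi G (fun w => d (w, 0)) v w) := by
  have h3 : tau G v = 3 → Happy G (fun w => d (w, 0)) v := by
    intro h
    obtain ⟨a, b, hab, ha, hb⟩ := hd (v, 0)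
    rcases ext_bi ha with ⟨-, ha1, ha2⟩ | ⟨-, ha1, -⟩
    · rcases ext_bi hb with ⟨-, hb1, hb2⟩ | ⟨-, hb1, -⟩
      · exact ⟨a.1, b.1, fun e => hab (Prod.ext e (ha1.trans hb1.symm)), ha2, hb2⟩
      · simp [h, gam_t3] at hb1
    · simp [h, gam_t3] at ha1
  refine ⟨h3, fun h0 => ?_⟩
  by_contra hcon
  have key : ∀ i : Fin 7, ∃ j k : Fin 7, j ≠ k ∧
      (gam (tau G v) i j = true ∧ d (v, i) ≠ d (v, j)) ∧
      (gam (tau G v) i k = true ∧ d (v, i) ≠ d (v, k)) := by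
    intro i
    obtain ⟨a, b, hab, ha, hb⟩ := hd (v, i)
    rcases ext_bi ha with ⟨-, -, ha2⟩ | ⟨ha0, ha1⟩
    · exact absurd ⟨_, ha2⟩ hcon
    rcases ext_bi hb with ⟨-, -, hb2⟩ | ⟨hb0, hb1⟩
    · exact absurd ⟨_, hb2⟩ hcon
    exact ⟨a.2, b.2, fun e => hab (Prod.ext (ha0.trans hb0.symm) e), ha1, hb1⟩
  have hcase : ∀ t : Fin 4, t ≠ 0 → t = 1 ∨ t = 2 ∨ t = 3 := by decide
  rcases hcase _ h0 with h | h | h
  · rw [h] at key
    exact gam_force (fun i => d (v, i)) key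
  · rw [h] at key
    obtain ⟨j, k, hjk, ⟨hj, -⟩, ⟨hk, -⟩⟩ := key 0
    exact hjk ((gam_t2 j hj).trans (gam_t2 k hk).symm)
  · obtain ⟨a, -, -, ha, -⟩ := h3 h
    exact hcon ⟨a, ha⟩

variable [MeasurableSpace V] [StandardBorelSpace V]

lemma meas_deg (hG : MeasurableSet {p : V × V | G.Adj p.1 p.2}) (hc : Cov G) (k : ℕ) :
    MeasurableSet {v | (k : ℕ∞) ≤ {w | G.Adj v w}.encard} := by
  let io := embeddingReal V
  have hio : Measurable io := measurable_embeddingReal V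
  have hinj : Injective io := (measurableEmbedding_embeddingReal V).injective
  obtain ⟨f, hfm, hfc⟩ := hc
  have h1 : {v | (k : ℕ∞) ≤ {w | G.Adj v w}.encard} = ⋃ s : Fin k → ℕ,
      (fun v => (v, fun i => f (s i) v)) ⁻¹'
        {q : V × (Fin k → V) | Tup io {w | G.Adj q.1 w} q.2} := by
    ext v
    simp only [mem_iUnion, mem_preimage, mem_ofPred_eq]
    constructor
    · intro h
      obtain ⟨x, hx⟩ := exists_tup hinj h
      choose s hs using fun i => hfc v (x i) (hx.1 i)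
      exact ⟨s, by simpa only [hs] using hx⟩
    · rintro ⟨s, hs⟩
      exact hs.le_encard
  rw [h1]
  refine MeasurableSet.iUnion fun s => ?_
  exact (measurable_id.prodMk (measurable_pi_lambda _ fun i => hfm (s i)))
    (meas_tup (measurableSet_setOfPred.1 hG) hio k)

lemma meas_tau (hG : MeasurableSet {p : V × V | G.Adj p.1 p.2}) (hc : Cov G) :
    Measurable (tau G) := by
  unfold tau
  exact Measurable.ite (meas_deg hG hc 3) measurable_const
    (Measurable.ite (meas_deg hG hc 2) measurable_const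
      (Measurable.ite (meas_deg hG hc 1) measurable_const measurable_const))

lemma meas_ext (hG : MeasurableSet {p : V × V | G.Adj p.1 p.2}) (hc : Cov G) :
    MeasurableSet {p : (V × Fin 7) × (V × Fin 7) | (ext G).Adj p.1 p.2} := by
  have hadj : Measurable fun p : V × V => G.Adj p.1 p.2 := measurableSet_setOfPred.1 hG
  have hio : Measurable (embeddingReal V) := measurable_embeddingReal V
  have hinj := (measurableEmbedding_embeddingReal V).injective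
  have ht := meas_tau hG hc
  refine measurableSet_setOfPred.2 (Measurable.or ?_ (Measurable.and ?_ ?_))
  · refine Measurable.and (Measurable.eq (by fun_prop) measurable_const)
      (Measurable.and (Measurable.eq (by fun_prop) measurable_const) ?_)
    exact hadj.comp (f := fun p : (V × Fin 7) × (V × Fin 7) => (p.1.1, p.2.1)) (by fun_prop)
  · simp_rw [← hinj.eq_iff]
    exact Measurable.eq (by fun_prop) (by fun_prop)
  · have h1 : Measurable fun q : Fin 4 × Fin 7 × Fin 7 => gam q.1 q.2.1 q.2.2 = true :=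
      measurable_of_countable _
    exact h1.comp (f := fun p : (V × Fin 7) × (V × Fin 7) => (tau G p.1.1, p.1.2, p.2.2))
      (by fun_prop)

theorem main (G : SimpleGraph V) (hG : MeasurableSet {p : V × V | G.Adj p.1 p.2})
    (hf : ∀ v, {w | G.Adj v w}.Finite) :
    ∃ c : V → Bool, Measurable c ∧ ∀ v : V,
      ({w | G.Adj v w}.ncard ≤ 4 →
        {w : V | G.Adj v w ∧ c w = c v}.ncard ≤ {w : V | G.Adj v w ∧ c w ≠ c v}.ncard) ∧
      (3 ≤ {w | G.Adj v w}.ncard → 2 ≤ {w : V | G.Adj v w ∧ c w ≠ c v}.ncard) := by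
  have hG' := meas_ext hG (cov_of_finite hG hf)
  obtain ⟨d, hd, hd'⟩ := exists_happy (ext G) hG' (cov_of_finite hG' (ext_finite hf))
    (ext_finite hf) (ext_three hf)
  refine ⟨fun w => d (w, 0), hd.comp (by fun_prop), fun v => ?_⟩
  obtain ⟨h3, h1⟩ := happy_of_ext hd' v
  set c : V → Bool := fun w => d (w, 0) with hc
  have hs := tau_spec hf v
  have f1 : {w : V | G.Adj v w ∧ c w = c v}.Finite := (hf v).subset fun w hw => hw.1
  have f2 : {w : V | G.Adj v w ∧ c w ≠ c v}.Finite := (hf v).subset fun w hw => hw.1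
  have hsum : {w : V | G.Adj v w ∧ c w = c v}.ncard + {w : V | G.Adj v w ∧ c w ≠ c v}.ncard =
      {w | G.Adj v w}.ncard := by
    rw [← Set.ncard_union_eq _ f1 f2]
    · congr 1
      ext w
      simp only [mem_union, mem_ofPred_eq]
      tauto
    · exact Set.disjoint_left.2 fun w h1 h2 => h2.2 h1.2
  have k3 : 3 ≤ {w | G.Adj v w}.ncard → 2 ≤ {w : V | G.Adj v w ∧ c w ≠ c v}.ncard := by
    intro h
    obtain ⟨a, b, hab, ha, hb⟩ := h3 (Fin.ext (by rw [hs]; simp; omega))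
    exact (Set.one_lt_ncard f2).2 ⟨a, ⟨ha.1, ha.2.symm⟩, b, ⟨hb.1, hb.2.symm⟩, hab⟩
  have k1 : 1 ≤ {w | G.Adj v w}.ncard → 1 ≤ {w : V | G.Adj v w ∧ c w ≠ c v}.ncard := by
    intro h
    obtain ⟨a, ha⟩ := h1 (fun e => by rw [e] at hs; simp at hs; omega)
    exact (Set.ncard_pos f2).2 ⟨a, ha.1, ha.2.symm⟩
  exact ⟨fun h => by omega, k3⟩

end Pool.Agent.P.MP_bd6b97_lc.G4
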