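import Pool.Agent.P.MP_bd6b97_lc.G4.Roots

set_option autoImplicit false

namespace Pool.Agent.P.MP_bd6b97_lc.G4

open Set Function Relation MeasureTheory

theorem exists_happy {V : Type} [MeasurableSpace V] [StandardBorelSpace V] (G : SimpleGraph V)
    (hG : MeasurableSet {p : V × V | G.Adj p.1 p.2})
    (hc : Cov G) (hf : ∀ v, {w | G.Adj v w}.Finite) (h3 : Three G) :
    ∃ d : V → Bool, Measurable d ∧ ∀ v, Happy G d v := by
  obtain ⟨C⟩ := nonempty_cub G hG hc hf h3
  clear hc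
  let A : Set V := {v | ¬ ∃ t, G.Reachable v t ∧ Tgt G ∅ t}
  have hA : MeasurableSet A := measurableSet_setOfPred.2
    (C.meas_ex measurable_id ((C.meas_tgt measurable_const).comp measurable_snd)).not
  have hcl : ∀ v w, v ∈ A → G.Adj v w → w ∈ A := fun v w hv hw ⟨t, ht, ht'⟩ =>
    hv ⟨t, hw.reachable.trans ht, ht'⟩
  have : StandardBorelSpace A := hA.standardBorel
  have hac : (G.induce A).IsAcyclic := by
    intro t p hp
    exact t.2 ⟨t, .refl _, tgt_of_cycle (p.map (SimpleGraph.Embedding.induce A).toHom)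
      (hp.map Subtype.val_injective)⟩
  have hG' : MeasurableSet {p : A × A | (G.induce A).Adj p.1 p.2} :=
    measurableSet_setOfPred.2 (C.meas_adj (f := fun p : A × A => (p.1 : V))
      (g := fun p : A × A => (p.2 : V)) (by fun_prop) (by fun_prop))
  have h3' : Three (G.induce A) := by
    intro v
    obtain ⟨a, b, c, hab, hac, hbc, ha, hb, hc⟩ := h3 v
    exact ⟨⟨a, hcl v a v.2 ha⟩, ⟨b, hcl v b v.2 hb⟩, ⟨c, hcl v c v.2 hc⟩,
      fun h => hab (congrArg Subtype.val h), fun h => hac (congrArg Subtype.val h),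
      fun h => hbc (congrArg Subtype.val h), ha, hb, hc⟩
  have hf' : ∀ v : A, {w | (G.induce A).Adj v w}.Finite := fun v =>
    ((hf v).preimage Subtype.val_injective.injOn).subset fun w hw => hw
  have hc' : Cov (G.induce A) := by
    refine ⟨fun i x => ⟨C.nb i x, hcl x _ x.2 (C.adj_nb i x)⟩, fun i => ?_, fun u v h => ?_⟩
    · exact ((C.meas_nb i).comp measurable_subtype_coe).subtype_mk
    · obtain ⟨i, hi⟩ := (C.adj_iff u v).1 h
      exact ⟨i, Subtype.ext hi⟩
  obtain ⟨C'⟩ := nonempty_cub (G.induce A) hG' hc' hf' h3'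
  obtain ⟨d, hd, hd'⟩ := C'.exists_core hac
  let c : V → Bool := Function.extend Subtype.val d fun _ => false
  have hc : Measurable c :=
    (MeasurableEmbedding.subtype_coe hA).measurable_extend hd measurable_const
  have hcd : ∀ x : A, c x = d x := fun x => Subtype.val_injective.extend_apply d _ x
  refine C.exists_happy_of_tgt hc (C.meas_core hc) (leafless_core c) fun v => ?_
  by_cases hv : v ∈ A
  · obtain ⟨t, ht, F, hF, htF⟩ := hd' ⟨v, hv⟩
    refine ⟨t, ht.map (SimpleGraph.Embedding.induce A).toHom, fun u hu => good_of_mem hu ?_⟩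
    refine ⟨Subtype.val '' F, ?_, t, htF, rfl⟩
    rintro _ ⟨x, hx, rfl⟩
    obtain ⟨a, b, hab, ha, hb, haF, hbF⟩ := hF x hx
    refine ⟨a, b, fun h => hab (Subtype.ext h), ⟨ha.1, ?_⟩, ⟨hb.1, ?_⟩, ⟨a, haF, rfl⟩,
      ⟨b, hbF, rfl⟩⟩
    · rw [hcd, hcd]; exact ha.2
    · rw [hcd, hcd]; exact hb.2
  · obtain ⟨t, ht, ht'⟩ := not_not.1 hv
    exact ⟨t, ht, fun u hu => (ht' u hu).mono (empty_subset _)⟩

end Pool.Agent.P.MP_bd6b97_lc.G4
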