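import Pool.Agent.P.MP_bd6b97_lc.G4.Merge

set_option autoImplicit false

namespace Pool.Agent.P.MP_bd6b97_lc.G4

open Set Function Relation MeasureTheory

variable {V : Type}

/-- joined by a walk avoiding the cut edges -/
def Conn (G : SimpleGraph V) (M : V → V → Prop) (a b : V) : Prop :=
  ReflTransGen (fun x y => G.Adj x y ∧ ¬ M x y ∧ ¬ M y x) a b

variable {G : SimpleGraph V}

lemma Conn.symm {M : V → V → Prop} {a b : V} (h : Conn G M a b) : Conn G M b a := by
  induction h with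
  | refl => exact ReflTransGen.refl
  | tail _ h ih => exact ReflTransGen.head ⟨h.1.symm, h.2.2, h.2.1⟩ ih

lemma Conn.trans {M : V → V → Prop} {a b d : V} (h : Conn G M a b) (h' : Conn G M b d) :
    Conn G M a d := ReflTransGen.trans h h'

lemma Conn.anti {M M' : V → V → Prop} (hM : ∀ a b, M a b → M' a b) {a b : V}
    (h : Conn G M' a b) : Conn G M a b := by
  induction h with
  | refl => exact ReflTransGen.refl
  | tail _ h ih =>
    exact ReflTransGen.tail ih ⟨h.1, fun h' => h.2.1 (hM _ _ h'), fun h' => h.2.2 (hM _ _ h')⟩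

lemma Conn.reach {M : V → V → Prop} {a b : V} (h : Conn G M a b) : G.Reachable a b :=
  rtg_reach (fun _ _ h => h.1) h

variable [MeasurableSpace V]

namespace Cub

variable (C : Cub G)

def Once (n : ℕ) (v : V) : Prop := ∃ m, m < n ∧ C.Fl m v

def Twice (n : ℕ) (v : V) : Prop := ∃ m, m < n ∧ C.Fl m v ∧ C.Once m v

def Root (v : V) : Prop := ∃ t, C.Fl t v ∧ C.Once t v ∧ (∀ z, C.E t v z → ¬ C.Twice t z) ∧
  ∀ z, C.E t v z → C.Once t z → C.io v ≤ C.io z

/-- consecutive flipping times -/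
def Next (m n : ℕ) (v : V) : Prop :=
  m < n ∧ C.Fl m v ∧ C.Fl n v ∧ ∀ k, m < k → k < n → ¬ C.Fl k v

/-- the least root of a class -/
def Lead (n : ℕ) (p r : V) : Prop :=
  C.E n p r ∧ C.Root r ∧ ∀ z, C.E n p z → C.Root z → C.io r ≤ C.io z

/-- the edge leaving the class of `p` at time `m` in the direction of `r` -/
def Exit (m : ℕ) (p r a b : V) : Prop := C.E m p a ∧ ¬ C.E m p b ∧ G.Adj a b ∧ Sd G b a r

def CutD (M : V → V → Prop) (n m1 m2 : ℕ) (p r a b : V) : Prop :=
  C.Root p ∧ C.Next m1 m2 p ∧ C.Next m2 n p ∧ C.Lead n p r ∧ C.Exit m1 p r a b ∧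
    ∃ x y, C.Exit m2 p r x y ∧ Conn G M p x

/-- cut edges made before time `n` -/
def M : ℕ → V → V → Prop
  | 0 => fun _ _ => False
  | n + 1 => fun a b => M n a b ∨ ∃ m1 m2 p r, C.CutD (M n) n m1 m2 p r a b

def Minf (a b : V) : Prop := ∃ n, C.M n a b

open Classical in
/-- parity of the distance to the root of the piece -/
noncomputable def cA (v : V) : Bool :=
  decide (∃ p, Conn G C.Minf p v ∧ C.Root p ∧ Odd (G.dist p v))

section meas

variable {X : Type} [MeasurableSpace X]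

lemma meas_Once (n : ℕ) : Measurable (C.Once n) :=
  Measurable.exists fun m => measurable_const.and (C.meas_Fl m)

lemma meas_Twice (n : ℕ) : Measurable (C.Twice n) :=
  Measurable.exists fun m => measurable_const.and ((C.meas_Fl m).and (C.meas_Once m))

lemma meas_Root : Measurable C.Root := by
  refine Measurable.exists fun t => (C.meas_Fl t).and ((C.meas_Once t).and (Measurable.and ?_ ?_))
  · exact C.meas_all' measurable_id (fun _ _ h => Cl.reach h)
      (C.meas_E t measurable_fst measurable_snd) ((C.meas_Twice t).comp measurable_snd).not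
  · exact C.meas_all' measurable_id (fun _ _ h => Cl.reach h)
      (C.meas_E t measurable_fst measurable_snd) (((C.meas_Once t).comp measurable_snd).imp
        (Measurable.le' (C.meas_io.comp measurable_fst) (C.meas_io.comp measurable_snd)))

lemma meas_Next (m n : ℕ) : Measurable (C.Next m n) :=
  measurable_const.and ((C.meas_Fl m).and ((C.meas_Fl n).and (Measurable.forall fun k =>
    measurable_const.imp (measurable_const.imp (C.meas_Fl k).not))))

lemma meas_Lead (n : ℕ) {f g : X → V} (hf : Measurable f) (hg : Measurable g) :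
    Measurable fun x => C.Lead n (f x) (g x) := by
  refine (C.meas_E n hf hg).and ((C.meas_Root.comp hg).and ?_)
  exact C.meas_all' hf (fun _ _ h => Cl.reach h)
    (C.meas_E n (hf.comp measurable_fst) measurable_snd) ((C.meas_Root.comp measurable_snd).imp
      (Measurable.le' (C.meas_io.comp (hg.comp measurable_fst)) (C.meas_io.comp measurable_snd)))

lemma meas_Exit (m : ℕ) {p r a b : X → V} (hp : Measurable p) (hr : Measurable r)
    (ha : Measurable a) (hb : Measurable b) :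
    Measurable fun x => C.Exit m (p x) (r x) (a x) (b x) :=
  (C.meas_E m hp ha).and ((C.meas_E m hp hb).not.and ((C.meas_adj ha hb).and
    (Measurable.lt (C.meas_dist hr hb) (C.meas_dist hr ha))))

include C in
lemma meas_Conn {M : V → V → Prop} (hM : Measurable fun q : V × V => M q.1 q.2) {f g : X → V}
    (hf : Measurable f) (hg : Measurable g) : Measurable fun x => Conn G M (f x) (g x) :=
  C.meas_rtgV _ ((C.meas_adj measurable_fst measurable_snd).and
    (hM.not.and (hM.comp measurable_swap).not)) (fun _ _ h => h.1) hf hg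

lemma meas_CutD {M : V → V → Prop} (hM : Measurable fun q : V × V => M q.1 q.2) (n m1 m2 : ℕ)
    {p r a b : X → V} (hp : Measurable p) (hr : Measurable r)
    (ha : Measurable a) (hb : Measurable b) :
    Measurable fun x => C.CutD M n m1 m2 (p x) (r x) (a x) (b x) := by
  refine (C.meas_Root.comp hp).and (((C.meas_Next m1 m2).comp hp).and
    (((C.meas_Next m2 n).comp hp).and ((C.meas_Lead n hp hr).and
      ((C.meas_Exit m1 hp hr ha hb).and ?_))))
  refine C.meas_ex' hp (fun _ _ ⟨_, h⟩ => Cl.reach h.1.1) ?_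
  refine C.meas_ex' (a := fun q : X × V => q.2) measurable_snd
    (fun _ _ h => h.1.2.2.1.reachable) ?_
  exact (C.meas_Exit m2 (hp.comp (measurable_fst.comp measurable_fst))
    (hr.comp (measurable_fst.comp measurable_fst)) (measurable_snd.comp measurable_fst)
    measurable_snd).and (C.meas_Conn hM (hp.comp (measurable_fst.comp measurable_fst))
      (measurable_snd.comp measurable_fst))

lemma meas_M (n : ℕ) : Measurable fun q : V × V => C.M n q.1 q.2 := by
  induction n with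
  | zero => exact measurable_const
  | succ n ih =>
    refine ih.or (Measurable.exists fun m1 => Measurable.exists fun m2 => ?_)
    refine C.meas_ex' measurable_fst (fun _ _ ⟨_, h⟩ => (Cl.reach h.2.2.2.2.1.1).symm) ?_
    refine C.meas_ex' (a := fun q : (V × V) × V => q.2) measurable_snd
      (fun _ _ h => Cl.reach h.2.2.2.1.1) ?_
    exact C.meas_CutD ih n m1 m2 (measurable_snd.comp measurable_fst) measurable_snd
      (measurable_fst.comp (measurable_fst.comp measurable_fst))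
      (measurable_snd.comp (measurable_fst.comp measurable_fst))

lemma meas_cA : Measurable C.cA := by
  classical
  have hM : Measurable fun q : V × V => C.Minf q.1 q.2 := Measurable.exists C.meas_M
  refine meas_decide (C.meas_ex' measurable_id (fun _ _ h => h.1.reach.symm) ?_)
  exact (C.meas_Conn hM measurable_snd measurable_fst).and ((C.meas_Root.comp measurable_snd).and
    ((measurable_of_countable fun k : ℕ => Odd k).comp (C.meas_dist measurable_snd measurable_fst)))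

end meas

variable {C}

lemma E.symm {n : ℕ} {a b : V} (h : C.E n a b) : C.E n b a := Cl.symm h

lemma E.trans {n : ℕ} {a b d : V} (h : C.E n a b) (h' : C.E n b d) : C.E n a d := Cl.trans h h'

lemma E.reach {n : ℕ} {a b : V} (h : C.E n a b) : G.Reachable a b := Cl.reach h

lemma M_mono {m n : ℕ} (hmn : m ≤ n) (a b : V) (h : C.M m a b) : C.M n a b := by
  induction n, hmn using Nat.le_induction with
  | base => exact h
  | succ n _ ih => exact Or.inl ih

lemma M_cut {n : ℕ} {a b : V} (h : C.M n a b) :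
    ∃ k m1 m2 p r, C.CutD (C.M k) k m1 m2 p r a b := by
  induction n with
  | zero => exact h.elim
  | succ n ih =>
    rcases h with h | h
    · exact ih h
    · exact ⟨n, h⟩

lemma exists_next {n : ℕ} {v : V} (h : C.Once n v) (hn : C.Fl n v) : ∃ m, C.Next m n v := by
  classical
  obtain ⟨m, hm, hm'⟩ := h
  refine ⟨Nat.findGreatest (fun k => C.Fl k v) (n - 1), ?_, ?_, hn, ?_⟩
  · have := Nat.findGreatest_le (P := fun k => C.Fl k v) (n - 1)
    omega
  · exact Nat.findGreatest_spec (P := fun k => C.Fl k v) (m := m) (by omega) hm'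
  · intro k h1 h2
    exact Nat.findGreatest_is_greatest h1 (by omega)

lemma exists_next_two {n : ℕ} {v : V} (h : C.Twice n v) (hn : C.Fl n v) :
    ∃ m1 m2, C.Next m1 m2 v ∧ C.Next m2 n v := by
  obtain ⟨m, hm, hm', k, hk, hk'⟩ := h
  obtain ⟨m2, h2⟩ := exists_next ⟨m, hm, hm'⟩ hn
  have : m ≤ m2 := by
    by_contra hcon
    exact h2.2.2.2 m (by omega) hm hm'
  obtain ⟨m1, h1⟩ := exists_next ⟨k, by omega, hk'⟩ h2.2.1
  exact ⟨m1, m2, h1, h2⟩

lemma Next.right_unique {m n n' : ℕ} {v : V} (h : C.Next m n v) (h' : C.Next m n' v) :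
    n = n' := by
  rcases lt_trichotomy n n' with h1 | h1 | h1
  · exact absurd h.2.2.1 (h'.2.2.2 n h.1 h1)
  · exact h1
  · exact absurd h'.2.2.1 (h.2.2.2 n' h'.1 h1)

lemma Next.left_unique {m m' n : ℕ} {v : V} (h : C.Next m n v) (h' : C.Next m' n v) :
    m = m' := by
  rcases lt_trichotomy m m' with h1 | h1 | h1
  · exact absurd h'.2.1 (h.2.2.2 m' h1 h'.1)
  · exact h1
  · exact absurd h.2.1 (h'.2.2.2 m h1 h.1)

lemma Next.of_E {m n : ℕ} {a b : V} (h : C.Next m n a) (hab : C.E m a b) : C.Next m n b :=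
  ⟨h.1, h.2.1.of_E hab, h.2.2.1.of_E (hab.mono h.1.le),
    fun k h1 h2 hk => h.2.2.2 k h1 h2 (hk.of_E (hab.mono h1.le).symm)⟩

lemma first_unique {m m' : ℕ} {v : V} (h : C.Fl m v) (h1 : ¬ C.Once m v) (h' : C.Fl m' v)
    (h1' : ¬ C.Once m' v) : m = m' := by
  rcases lt_trichotomy m m' with h2 | h2 | h2
  · exact absurd ⟨m, h2, h⟩ h1'
  · exact h2
  · exact absurd ⟨m', h2, h'⟩ h1

lemma Lead.unique {n : ℕ} {p p' r r' : V} (h : C.Lead n p r) (h' : C.Lead n p' r')
    (hp : C.E n p p') : r = r' :=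
  C.inj_io (le_antisymm (h.2.2 r' (hp.trans h'.1) h'.2.1) (h'.2.2 r (hp.symm.trans h.1) h.2.1))

lemma Lead.of_E {n : ℕ} {p p' r : V} (h : C.Lead n p r) (hp : C.E n p p') : C.Lead n p' r :=
  ⟨hp.symm.trans h.1, h.2.1, fun z hz => h.2.2 z (hp.trans hz)⟩

lemma exists_lead {n : ℕ} {p : V} (hp : C.Root p) (hn : C.Fl n p) : ∃ r, C.Lead n p r := by
  obtain ⟨r, hr, hr'⟩ := Set.exists_min_image {z | C.E n p z ∧ C.Root z} C.io
    (hn.1.subset fun z hz => hz.1) ⟨p, Cl.refl _ _, hp⟩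
  exact ⟨r, hr.1, hr.2, fun z h1 h2 => hr' z ⟨h1, h2⟩⟩

lemma root_twice {n : ℕ} {p p' : V} (hp : C.Root p) (hp' : C.Root p') (hne : p ≠ p')
    (hE : C.E n p p') : C.Twice n p := by
  obtain ⟨t, h1, h2, h3, h4⟩ := hp
  obtain ⟨t', h1', h2', h3', h4'⟩ := hp'
  by_contra hcon
  have hn : n ≤ t := by
    by_contra h
    exact hcon ⟨t, by omega, h1, h2⟩
  rcases lt_trichotomy t t' with h | h | h
  · exact h3' p (hE.mono (by omega)).symm ⟨t, h, h1, h2⟩
  · subst h
    exact hne (C.inj_io (le_antisymm (h4 p' (hE.mono hn) h2') (h4' p (hE.mono hn).symm h2)))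
  · exact h3 p' (hE.mono hn) ⟨t', h, h1', h2'⟩

lemma exists_root {v : V} (h : C.IO v) : ∃ p, G.Reachable v p ∧ C.Root p := by
  classical
  have hex : ∃ t, ∃ z, G.Reachable v z ∧ C.Fl t z ∧ C.Once t z := by
    obtain ⟨m, -, hm⟩ := h 0
    obtain ⟨t, ht, ht'⟩ := h (m + 1)
    exact ⟨t, v, .refl _, ht', m, ht, hm⟩
  obtain ⟨z, hz, h1, h2⟩ := Nat.find_spec hex
  set t := Nat.find hex with ht
  obtain ⟨r, hr, hr'⟩ := Set.exists_min_image {w | C.E t z w ∧ C.Once t w} C.io
    (h1.1.subset fun z hz => hz.1) ⟨z, Cl.refl _ _, h2⟩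
  refine ⟨r, hz.trans hr.1.reach, t, h1.of_E hr.1, hr.2, ?_, ?_⟩
  · rintro w hw ⟨m, hm, hm'⟩
    exact Nat.find_min hex hm ⟨w, hz.trans (hr.1.trans hw).reach, hm'⟩
  · exact fun w hw hw' => hr' w ⟨hr.1.trans hw, hw'⟩

lemma Exit.of_E {m : ℕ} {p p' r a b : V} (h : C.Exit m p r a b) (hp : C.E m p p') :
    C.Exit m p' r a b :=
  ⟨hp.symm.trans h.1, fun h' => h.2.1 (hp.trans h'), h.2.2⟩

lemma exists_exit' {m : ℕ} {p r : V} (hr : ¬ C.E m p r) (h : G.Reachable p r) :
    ∃ a b, C.Exit m p r a b :=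
  exists_exit (P := {z | C.E m p z}) (Cl.refl _ _) hr h.symm

lemma Exit.first_left {m : ℕ} {p r a b : V} (h : C.Exit m p r a b) : ¬ C.Once m a := by
  rintro ⟨k, hk, hk'⟩
  exact h.2.1 (h.1.trans ((hk'.E_succ h.2.2.1).mono hk))

lemma Exit.E_right {m m' : ℕ} {p r a b : V} (h : C.Exit m p r a b) (hp : C.Fl m p)
    (hm : m < m') : C.E m' p b :=
  (h.1.mono hm.le).trans (((hp.of_E h.1).E_succ h.2.2.1).mono hm)

lemma Exit.first_right {m m' : ℕ} {p r a b : V} (h : C.Exit m p r a b) (hp : C.Next m m' p) :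
    ¬ C.Once m' b := by
  rintro ⟨k, hk, hk'⟩
  rcases lt_trichotomy k m with h1 | h1 | h1
  · exact h.2.1 (h.1.trans ((hk'.E_succ h.2.2.1.symm).mono h1).symm)
  · subst h1
    exact h.2.1 (h.1.trans ((hp.2.1.of_E h.1).E_of_adj hk' h.2.2.1))
  · exact hp.2.2.2 k h1 hk (hk'.of_E (h.E_right hp.2.1 h1).symm)

section acyclic

variable (hG : G.IsAcyclic)
include hG

lemma Exit.side {m : ℕ} {p r a b z : V} (h : C.Exit m p r a b) (hz : C.E m p z) :
    Sd G a b z :=
  Sd.rtg hG (fun _ _ h => h.1) h.2.2.1 (.refl _) (h.1.symm.trans hz) (sd_self h.2.2.1)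
    fun h' => h.2.1 (h.1.trans h')

lemma Exit.unique {m : ℕ} {p r a b a' b' : V} (hr : G.Reachable p r) (h : C.Exit m p r a b)
    (h' : C.Exit m p r a' b') : a = a' ∧ b = b' := by
  by_contra hcon
  have haa : G.Reachable a a' := (h.1.symm.trans h'.1).reach
  refine not_both_behind hG h.2.2.1 h'.2.2.1 (hr.symm.trans h.1.reach) (hr.symm.trans h'.1.reach)
    h.2.2.2 h'.2.2.2 ?_ ?_
  · exact (h.side hG h'.1).step hG h.2.2.1 h'.2.2.1 haa.symm fun e => hcon ⟨e.1.symm, e.2.symm⟩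
  · exact (h'.side hG h.1).step hG h'.2.2.1 h.2.2.1 haa hcon

lemma Exit.nest {m m' : ℕ} {p r a b x y : V} (hr : G.Reachable p r) (h : C.Exit m p r a b)
    (h' : C.Exit m' p r x y) (hp : C.Fl m p) (hm : m < m') : Sd G b a x := by
  have hb := h.E_right hp hm
  have hxa : G.Reachable x a := h'.1.reach.symm.trans h.1.reach
  refine sd_total hG h.2.2.1 hxa fun hcon => ?_
  refine not_both_behind hG h.2.2.1 h'.2.2.1 (hr.symm.trans h.1.reach) (hr.symm.trans h'.1.reach)
    h.2.2.2 h'.2.2.2 ?_ (h'.side hG hb)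
  refine hcon.step hG h.2.2.1 h'.2.2.1 hxa ?_
  rintro ⟨-, rfl⟩
  exact h'.2.1 hb

lemma CutD.conn {M : V → V → Prop} {n m1 m2 : ℕ} {p r a b : V} (h : C.CutD M n m1 m2 p r a b) :
    Conn G M p a ∧ Conn G M p b := by
  obtain ⟨-, h1, -, h3, h4, x, y, h5, h6⟩ := h
  obtain ⟨h7, h8⟩ := crossing hG (fun _ _ h => h.1) h4.2.2.1 h4.1.reach h6
    (h4.side hG (Cl.refl _ _)) (h4.nest hG h3.1.reach h5 h1.2.1 h1.1)
  exact ⟨h7, ReflTransGen.tail h7 h8⟩

lemma key_cut {n m1 m2 : ℕ} {p r x y q : V} (hp : C.Root p) (h1 : C.Next m1 m2 p)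
    (h2 : C.Next m2 n p) (h3 : C.Lead n p r) (h4 : C.Exit m2 p r x y) (hq : Sd G y x q) :
    ¬ Conn G (C.M (n + 1)) p q := by
  intro hc
  obtain ⟨h5, -⟩ := crossing hG (fun _ _ h => h.1) h4.2.2.1 h4.1.reach hc
    (h4.side hG (Cl.refl _ _)) hq
  have hr : ¬ C.E m1 p r := fun h => (h4.side hG (h.mono h1.1.le)).asymm h4.2.2.2
  obtain ⟨a, b, hab⟩ := exists_exit' hr h3.1.reach
  have hcut : C.M (n + 1) a b := Or.inr ⟨m1, m2, p, r, hp, h1, h2, h3, hab, x, y, h4,
    Conn.anti (M_mono (Nat.le_succ n)) h5⟩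
  exact (crossing hG (fun _ _ h => h.1) hab.2.2.1 hab.1.reach h5
    (hab.side hG (Cl.refl _ _)) (hab.nest hG h3.1.reach h4 h1.2.1 h1.1)).2.2.1 hcut

lemma roots_sep (n : ℕ) : ∀ p p' : V, C.Root p → C.Root p' → C.Fl n p → C.E n p p' →
    Conn G (C.M (n + 1)) p p' → p = p' := by
  induction n using Nat.strong_induction_on with
  | _ n ih =>
  intro p p' hp hp' hn hE hc
  by_contra hne
  obtain ⟨m1, m2, h1, h2⟩ := exists_next_two (root_twice hp hp' hne hE) hn
  obtain ⟨k1, k2, h1', h2'⟩ := exists_next_two (root_twice hp' hp (Ne.symm hne) hE.symm)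
    (hn.of_E hE)
  have hdis : ∀ z, C.E m2 p z → ¬ C.E k2 p' z := by
    intro z hz hz'
    have : m2 = k2 := (h2.of_E hz).left_unique (h2'.of_E hz')
    subst this
    exact hne (ih m2 h2.1 p p' hp hp' h2.2.1 (hz.trans hz'.symm)
      (Conn.anti (M_mono (by have := h2.1; omega)) hc))
  obtain ⟨r, hr⟩ := exists_lead hp hn
  have hr' := hr.of_E hE
  by_cases hA : C.E m2 p r
  · obtain ⟨x, y, hx⟩ := exists_exit' (hdis r hA) hr'.1.reach
    refine key_cut hG hp' h1' h2' hr' hx ?_ hc.symm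
    exact Sd.rtg hG (fun _ _ h => h.1) hx.2.2.1.symm
      ((hr'.1.reach.symm.trans hx.1.reach).trans hx.2.2.1.reachable) hA.symm hx.2.2.2
      fun h => hdis x (hA.trans h) hx.1
  obtain ⟨x, y, hx⟩ := exists_exit' hA hr.1.reach
  have hpx : G.Reachable p' x := hE.reach.symm.trans hx.1.reach
  have h5 : Sd G x y p' := sd_total hG hx.2.2.1.symm (hpx.trans hx.2.2.1.reachable)
    fun h => key_cut hG hp h1 h2 hr hx h hc
  have h6 : ∀ z, C.E k2 p' z → Sd G x y z := fun z hz =>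
    Sd.rtg' hG (fun _ _ h => h.1) hx.2.2.1 hpx hz h5 fun h => hdis x hx.1 h
  have hB : ¬ C.E k2 p' r := fun h => (h6 r h).asymm hx.2.2.2
  obtain ⟨x', y', hx'⟩ := exists_exit' hB hr'.1.reach
  have hpx' : G.Reachable p x' := hE.reach.trans hx'.1.reach
  have h5' : Sd G x' y' p := sd_total hG hx'.2.2.1.symm (hpx'.trans hx'.2.2.1.reachable)
    fun h => key_cut hG hp' h1' h2' hr' hx' h hc.symm
  have h6' : Sd G x' y' x :=
    Sd.rtg' hG (fun _ _ h => h.1) hx'.2.2.1 hpx' hx.1 h5' fun h => hdis x' h hx'.1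
  have hxx : x ≠ x' := by
    rintro rfl
    exact hdis x hx.1 hx'.1
  have hxr : G.Reachable x x' := hx.1.reach.symm.trans hpx'
  exact not_both_behind hG hx.2.2.1 hx'.2.2.1 (hr.1.reach.symm.trans hx.1.reach)
    (hr'.1.reach.symm.trans hx'.1.reach) hx.2.2.2 hx'.2.2.2
    ((h6 x' hx'.1).step hG hx.2.2.1 hx'.2.2.1 hxr.symm fun e => hxx e.1.symm)
    (h6'.step hG hx'.2.2.1 hx.2.2.1 hxr fun e => hxx e.1)

lemma cut_left {v b b' : V} (h : C.Minf v b) (h' : C.Minf v b') : b = b' := by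
  obtain ⟨_, h⟩ := h
  obtain ⟨_, h'⟩ := h'
  obtain ⟨n, m1, m2, p, r, -, h1, h2, h3, h4, -⟩ := M_cut h
  obtain ⟨n', m1', m2', p', r', -, h1', h2', h3', h4', -⟩ := M_cut h'
  obtain rfl : m1 = m1' :=
    first_unique (h1.2.1.of_E h4.1) h4.first_left (h1'.2.1.of_E h4'.1) h4'.first_left
  have hE : C.E m1 p p' := h4.1.trans h4'.1.symm
  obtain rfl : m2 = m2' := (h1.of_E hE).right_unique h1'
  obtain rfl : n = n' := (h2.of_E (hE.mono h1.1.le)).right_unique h2'
  obtain rfl : r = r' := h3.unique h3' (hE.mono (h1.1.trans h2.1).le)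
  exact closer_unique hG h4.2.2.1 h4'.2.2.1 (h3.1.reach.symm.trans h4.1.reach) h4.2.2.2 h4'.2.2.2

lemma cut_right {v a a' : V} (h : C.Minf a v) (h' : C.Minf a' v) : a = a' := by
  obtain ⟨_, h⟩ := h
  obtain ⟨_, h'⟩ := h'
  obtain ⟨n, m1, m2, p, r, hc⟩ := M_cut h
  obtain ⟨n', m1', m2', p', r', hc'⟩ := M_cut h'
  have hv := (hc.conn hG).2
  have hv' := (hc'.conn hG).2
  obtain ⟨hp, h1, h2, h3, h4, -⟩ := hc
  obtain ⟨hp', h1', h2', h3', h4', -⟩ := hc'
  have e := h4.E_right h1.2.1 h1.1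
  have e' := h4'.E_right h1'.2.1 h1'.1
  obtain rfl : m2 = m2' :=
    first_unique (h2.2.1.of_E e) (h4.first_right h1) (h2'.2.1.of_E e') (h4'.first_right h1')
  have hE : C.E m2 p p' := e.trans e'.symm
  obtain rfl : n = n' := (h2.of_E hE).right_unique h2'
  obtain rfl : r = r' := h3.unique h3' (hE.mono h2.1.le)
  obtain rfl : p = p' := roots_sep hG m2 p p' hp hp' h2.2.1 hE
    (Conn.anti (M_mono h2.1) (hv.trans hv'.symm))
  obtain rfl : m1 = m1' := h1.left_unique h1'
  exact (h4.unique hG h3.1.reach h4').1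

lemma cut_mid {v a w : V} (h : C.Minf a v) (h' : C.Minf v w) : False := by
  obtain ⟨_, h⟩ := h
  obtain ⟨_, h'⟩ := h'
  obtain ⟨n, m1, m2, p, r, hc⟩ := M_cut h
  obtain ⟨n', m1', m2', p', r', hc'⟩ := M_cut h'
  have hv := (hc.conn hG).2
  have hv' := (hc'.conn hG).1
  have hcut : C.M (n + 1) a v := Or.inr ⟨m1, m2, p, r, hc⟩
  obtain ⟨hp, h1, h2, h3, h4, -⟩ := hc
  obtain ⟨hp', h1', h2', h3', h4', -⟩ := hc'
  have e := h4.E_right h1.2.1 h1.1
  obtain rfl : m2 = m1' :=
    first_unique (h2.2.1.of_E e) (h4.first_right h1) (h1'.2.1.of_E h4'.1) h4'.first_left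
  have hE : C.E m2 p p' := e.trans h4'.1.symm
  obtain rfl : n = m2' := (h2.of_E hE).right_unique h1'
  obtain rfl : p = p' := roots_sep hG m2 p p' hp hp' h2.2.1 hE
    ((Conn.anti (M_mono h2.1) hv).trans
      (Conn.anti (M_mono (by have := h2.1; have := h2'.1; omega)) hv'.symm))
  exact (crossing hG (fun _ _ h => h.1) h4.2.2.1 h4.1.reach hv'
    (h4.side hG (Cl.refl _ _)) (sd_self h4.2.2.1.symm)).2.2.1 (M_mono h2'.1 _ _ hcut)

lemma exists_partner (v : V) : ∃ u, ∀ w, w ≠ u → ¬ C.Minf v w ∧ ¬ C.Minf w v := by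
  by_cases h1 : ∃ u, C.Minf v u
  · obtain ⟨u, hu⟩ := h1
    exact ⟨u, fun w hw => ⟨fun h => hw (cut_left hG h hu), fun h => cut_mid hG h hu⟩⟩
  by_cases h2 : ∃ u, C.Minf u v
  · obtain ⟨u, hu⟩ := h2
    exact ⟨u, fun w hw => ⟨fun h => h1 ⟨w, h⟩, fun h => hw (cut_right hG h hu)⟩⟩
  · exact ⟨v, fun w _ => ⟨fun h => h1 ⟨w, h⟩, fun h => h2 ⟨w, h⟩⟩⟩

theorem core_of_IO {v : V} (h : C.IO v) : ∃ t, G.Reachable v t ∧ t ∈ Core G C.cA := by
  classical
  obtain ⟨p, hvp, hp⟩ := exists_root h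
  have hio := (h.reach hvp).1
  have hcol : ∀ z, Conn G C.Minf p z → C.cA z = decide (Odd (G.dist p z)) := by
    intro z hz
    unfold cA
    rw [decide_eq_decide]
    constructor
    · rintro ⟨p', h1, h2, h3⟩
      have hc := hz.trans h1.symm
      obtain ⟨-, n, hn⟩ := hio.reach hc.reach
      obtain ⟨m, hm, hm'⟩ := hio n
      rwa [roots_sep hG m p p' hp h2 hm' (hn.mono hm) (Conn.anti (fun a b h => ⟨_, h⟩) hc)]
    · exact fun h3 => ⟨p, hz, hp, h3⟩
  refine ⟨p, hvp, {z | Conn G C.Minf p z}, ?_, ReflTransGen.refl⟩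
  intro z hz
  obtain ⟨u, hu⟩ := exists_partner (C := C) hG z
  have key : ∀ a, G.Adj z a → a ≠ u → Bi G C.cA z a ∧ Conn G C.Minf p a := by
    intro a ha hau
    have hc : Conn G C.Minf p a := ReflTransGen.tail hz ⟨ha, hu a hau⟩
    refine ⟨⟨ha, ?_⟩, hc⟩
    rw [hcol z hz, hcol a hc, Ne, decide_eq_decide]
    rcases hG.dist_eq_dist_add_one_of_adj_of_reachable p ha (Conn.reach hz) with e | e
    · rw [e, Nat.odd_add_one]
      exact fun h => iff_not_self h.symm
    · rw [e, Nat.odd_add_one]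
      exact iff_not_self
  obtain ⟨a, b, hab, ha, hb, hau, hbu⟩ := C.exists_two z u
  exact ⟨a, b, hab, (key a ha hau).1, (key b hb hbu).1, (key a ha hau).2, (key b hb hbu).2⟩

variable (C)

include C in
theorem exists_core : ∃ d : V → Bool, Measurable d ∧
    ∀ v, ∃ t, G.Reachable v t ∧ t ∈ Core G d := by
  let c : ℕ → V → Bool := fun k => match k with
    | 0 => C.cA
    | 1 => lim C.mc
    | n + 2 => C.fstep n (lim C.mc)
  refine C.choose_first c ?_ ?_
  · rintro (_ | _ | n)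
    · exact C.meas_cA
    · exact meas_lim C.meas_mc
    · exact C.meas_fstep n (meas_lim C.meas_mc)
  · intro v
    by_cases h : C.IO v
    · exact ⟨0, core_of_IO hG h⟩
    · rcases core_of_not_IO hG h with h | ⟨n, h⟩
      · exact ⟨1, v, .refl _, h⟩
      · exact ⟨n + 2, h⟩

end acyclic

end Cub

end Pool.Agent.P.MP_bd6b97_lc.G4
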